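import Pool.Agent.Run7.h271.ML.Bnd

/-!
# Divisors of bounded log discrepancy computing minimal log discrepancies, in étale toric coordinates

`G = (X ∋ x, B)` is a pair with a closed point `x`, and `a = ∏ j, (a.I j) ^ (a.c j)` is an `ℝ`-ideal on
`X` with nonzero ideals and with exponents in a set `Γ` (`RIdeal.In`). If the ideals are principal,
`a.I j = (f j)`, then the log discrepancies are the ones of the pair `(X, B + ∑ j, c j * div (f j))`. The
class `InClass n Γ a m`: the pair `(X ∋ x, B)` has an étale chart `(Y ∋ P, B')` (a variety `U` with étale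
morphisms `U → X`, `U → Y` and a closed point over `x` and `P`, such that the pull-backs of `K_X + B` and
`K_Y + B'` agree) where `Y` is a toric germ of dimension `n`, given by any strictly convex cone, with the
fixed point `P`, and `B'` has coefficients in `Γ`; and one of the following holds: the number `m` is the
log discrepancy of a divisor over `X ∋ x` which is monomial in the étale toric coordinates (a weighted
blow-up in these coordinates), and then the ideals are arbitrary; or `B'` is nondegenerate at `P` in the
sense of Khovanskii and Kouchnirenko and the ideals of `a` are monomial on `U`.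

Theorem. For every `n` and every DCC set `Γ` there is a number `L`, which depends only on `n` and `Γ`,
such that for all these pairs with the minimal log discrepancy `m ≥ 0` some divisor `E` over `X ∋ x` has
the log discrepancy `m` for `(X, B)` with the `ℝ`-ideal `a`, and a log discrepancy of at most `L` for the
pair `(X, B)`.

For `B = 0` this is the assertion of the problem, `a(E, X, 0) ≤ L`, for the pairs `(X ∋ x, D)` with
`D = ∑ j, c j * D j`, `D j` effective Cartier divisors at `x`, on all `ℚ`-Gorenstein germs which are
étale locally toric (in particular on all smooth germs), whose minimal log discrepancy is computed by a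
weighted blow-up in some étale toric coordinates. The starting file `ToricGermsBounded` is about
boundaries on the toric germs themselves.
-/

set_option autoImplicit false

namespace Pool.Agent.Results.MP_43381c_ag.EtaleChartsWithIdeals

open Pool.Agent.H436R3.Fol Pool.Agent.H436R3.KT Pool.Agent.W497.Mld Pool.Agent.TH165.ACC
  Pool.Agent.Run7.h271.ML

/-- Every minimal log discrepancy of the class is computed by a divisor whose log discrepancy for the
pair `(X, B)` is at most `L`. -/
def Bounded (n : ℕ) (Γ : Set ℝ) (L : ℝ) : Prop :=
  ∀ (r : ℕ) (G : Germ) (a : RIdeal G r) (m : ℝ), a.In Γ → 0 ≤ m → a.IsMld m → InClass n Γ a m →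
    ∃ v, IsOverGerm G.x v ∧ a.IsLogDisc v m ∧
      ∃ t ≤ L, Pool.Agent.W497.Mld.IsLogDisc G.e v t

theorem result :
    (∀ (n : ℕ) (Γ : Set ℝ), Pool.Agent.TH165.ACC.IsDCC Γ → ∃ L : ℝ, Bounded n Γ L) ∧
    -- the toric germs belong to the class
    (∀ (n r : ℕ) (Γ : Set ℝ) (t : TGerm n) (a : RIdeal t.germ r) (m : ℝ), CoeffIn t.B Γ →
      (∃ v, IsOverGerm t.g.P v ∧ IsMonomial n v ∧ a.IsLogDisc (t.val v) m) → InClass n Γ a m) := by
  refine ⟨fun n Γ hΓ => ?_, fun n r Γ t a m hB hv => ?_⟩
  · obtain ⟨s, L, h⟩ := bounded_class n hΓ
    refine ⟨L, fun r G a m ha hm0 hm hcl => ?_⟩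
    obtain ⟨v, hov, hl, hA, -⟩ := h r G a m ha hm0 hm hcl
    obtain ⟨t, k, ht, hk, hmt⟩ := hl
    exact ⟨v, hov, ⟨t, k, ht, hk, hmt⟩, t, hA t ht, ht⟩
  · exact ⟨t, EtChart.refl t.germ, hB, Or.inr (comp_refl a hv)⟩

end Pool.Agent.Results.MP_43381c_ag.EtaleChartsWithIdeals
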